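import Pool.Agent.PVD.StmtsG

/-! SMD: equal facet data give equal projection data. Uses PRF and HSM. -/

set_option autoImplicit false

open MeasureTheory Metric Set Filter Topology

namespace PVD.H84

open PV PV3 PVD

open Classical in
/-- the sum over the facets looking in direction `-u`, written with the facets of direction `u` -/
theorem smd_flip {n : ℕ} (U : Finset (E n)) (hneg : ∀ w ∈ U, -w ∈ U) (u : E n) (g : E n → ℝ) :
    ∑ w ∈ U.filter (fun w => 0 < inner ℝ (-u) w), g w =
      ∑ w ∈ U.filter (fun w => 0 < inner ℝ u w), g (-w) := by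
  refine Finset.sum_nbij' (fun w => -w) (fun w => -w) ?_ ?_ ?_ ?_ ?_
  · intro w hw
    rw [Finset.mem_filter] at hw ⊢
    refine ⟨hneg w hw.1, ?_⟩
    rw [inner_neg_right, ← inner_neg_left]; exact hw.2
  · intro w hw
    rw [Finset.mem_filter] at hw ⊢
    refine ⟨hneg w hw.1, ?_⟩
    rw [inner_neg_right, inner_neg_left, neg_neg]; exact hw.2
  · intro w _; simp
  · intro w _; simp
  · intro w _; simp

theorem isCompact_Pl {n : ℕ} (U : Finset (E n)) (c : E n → ℝ) (hB : Bd U) :
    IsCompact (Pl U c) := by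
  refine isCompact_of_isClosed_isBounded ?_ (hB c)
  have e : Pl U c = ⋂ w ∈ U, {x : E n | inner ℝ x w ≤ c w} := by
    ext x; simp [Pl]
  rw [e]
  refine isClosed_biInter fun w _ => ?_
  exact isClosed_le (by fun_prop) continuous_const

theorem continuous_proj {n : ℕ} (u : E n) : Continuous (proj u) := by
  unfold proj
  fun_prop

theorem isCompact_Pr {n : ℕ} (u : E n) (S : Set (E n)) (hS : IsCompact S) :
    IsCompact (Pr u S) := by
  have e : Pr u S = (fun p : E n × ℝ => proj u p.1 + p.2 • u) '' (S ×ˢ Icc (0 : ℝ) 1) := by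
    ext y
    constructor
    · rintro ⟨x, hx, s, hs, rfl⟩
      exact ⟨(x, s), ⟨hx, hs⟩, rfl⟩
    · rintro ⟨⟨x, s⟩, ⟨hx, hs⟩, rfl⟩
      exact ⟨x, hx, s, hs, rfl⟩
  rw [e]
  refine (hS.prod isCompact_Icc).image ?_
  have := continuous_proj u
  fun_prop

theorem inner_proj {n : ℕ} (u x v : E n) : inner ℝ v (proj u x) = inner ℝ x (proj u v) := by
  simp only [proj, inner_sub_right, inner_smul_right]
  rw [real_inner_comm v x]
  ring

theorem inner_u_proj {n : ℕ} (u v : E n) (hu : ‖u‖ = 1) : inner ℝ u (proj u v) = 0 := by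
  simp only [proj, inner_sub_right, inner_smul_right]
  rw [real_inner_self_eq_norm_sq, hu, real_inner_comm u v]
  ring

theorem smd (hP : PRFStmt) (hH : HSMStmt) : SMDStmt := by
  intro n U c c' hn hU hB hneg hm hm' h1 h2 u hu
  obtain ⟨γ, hγ0, hγt, hγ⟩ := hH n hn
  classical
  have hu' : ‖-u‖ = 1 := by rw [norm_neg]; exact hu
  obtain ⟨a1, a2, a3, a4⟩ := hP n U c u hU hB hu hm
  obtain ⟨b1, b2, b3, b4⟩ := hP n U c' u hU hB hu hm'
  obtain ⟨c1, c2, -, -⟩ := hP n U c (-u) hU hB hu' hm
  obtain ⟨d1, d2, -, -⟩ := hP n U c' (-u) hU hB hu' hm'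
  -- volumes of the prisms
  have key1 : vl (Pr u (Pl U c)) = vl (Pr u (Pl U c')) := by
    rw [a3, smd_flip U hneg u] at c1
    rw [b3, smd_flip U hneg u] at d1
    have e1 : vl (Pr u (Pl U c)) + vl (Pr u (Pl U c)) =
        ∑ w ∈ U.filter (fun w => 0 < inner ℝ u w), inner ℝ u w * (fa U c w + fa U c (-w)) := by
      nth_rw 1 [a1]
      rw [c1, ← Finset.sum_add_distrib]
      apply Finset.sum_congr rfl
      intro w _
      rw [inner_neg_left, inner_neg_right, neg_neg]; ring
    have e2 : vl (Pr u (Pl U c')) + vl (Pr u (Pl U c')) =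
        ∑ w ∈ U.filter (fun w => 0 < inner ℝ u w), inner ℝ u w * (fa U c' w + fa U c' (-w)) := by
      nth_rw 1 [b1]
      rw [d1, ← Finset.sum_add_distrib]
      apply Finset.sum_congr rfl
      intro w _
      rw [inner_neg_left, inner_neg_right, neg_neg]; ring
    have e3 : ∑ w ∈ U.filter (fun w => 0 < inner ℝ u w), inner ℝ u w * (fa U c w + fa U c (-w)) =
        ∑ w ∈ U.filter (fun w => 0 < inner ℝ u w), inner ℝ u w * (fa U c' w + fa U c' (-w)) := by
      apply Finset.sum_congr rfl
      intro w hw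
      rw [h1 w (Finset.mem_filter.1 hw).1]
    linarith
  -- moments of the prisms
  have key2 : ∀ v : E n, inner ℝ u v = 0 →
      ∫ y in Pr u (Pl U c), inner ℝ y v = ∫ y in Pr u (Pl U c'), inner ℝ y v := by
    intro v hv
    have hv' : inner ℝ (-u) v = 0 := by rw [inner_neg_left, hv, neg_zero]
    have f1 := a2 v hv
    have f2 := c2 v hv'
    have g1 := b2 v hv
    have g2 := d2 v hv'
    rw [a4 v hv, smd_flip U hneg u] at f2
    rw [b4 v hv, smd_flip U hneg u] at g2
    have e2 : (∫ y in Pr u (Pl U c), inner ℝ y v) + (∫ y in Pr u (Pl U c), inner ℝ y v) =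
        ∑ w ∈ U.filter (fun w => 0 < inner ℝ u w), inner ℝ u w * inner ℝ w v *
          (fa U c w * c w - fa U c (-w) * c (-w)) := by
      nth_rw 1 [f1]
      rw [f2, ← Finset.sum_add_distrib]
      apply Finset.sum_congr rfl
      intro w _
      rw [inner_neg_left, inner_neg_right, neg_neg, inner_neg_left]; ring
    have e3 : (∫ y in Pr u (Pl U c'), inner ℝ y v) + (∫ y in Pr u (Pl U c'), inner ℝ y v) =
        ∑ w ∈ U.filter (fun w => 0 < inner ℝ u w), inner ℝ u w * inner ℝ w v *
          (fa U c' w * c' w - fa U c' (-w) * c' (-w)) := by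
      nth_rw 1 [g1]
      rw [g2, ← Finset.sum_add_distrib]
      apply Finset.sum_congr rfl
      intro w _
      rw [inner_neg_left, inner_neg_right, neg_neg, inner_neg_left]; ring
    have e4 : ∑ w ∈ U.filter (fun w => 0 < inner ℝ u w), inner ℝ u w * inner ℝ w v *
          (fa U c w * c w - fa U c (-w) * c (-w)) =
        ∑ w ∈ U.filter (fun w => 0 < inner ℝ u w), inner ℝ u w * inner ℝ w v *
          (fa U c' w * c' w - fa U c' (-w) * c' (-w)) := by
      apply Finset.sum_congr rfl
      intro w hw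
      rw [h2 w (Finset.mem_filter.1 hw).1]
    linarith
  have hc : IsCompact (Pl U c) := isCompact_Pl U c hB
  have hc' : IsCompact (Pl U c') := isCompact_Pl U c' hB
  have hf : volume (Pr u (Pl U c)) ≠ ⊤ := (isCompact_Pr u _ hc).measure_lt_top.ne
  have hf' : volume (Pr u (Pl U c')) ≠ ⊤ := (isCompact_Pr u _ hc').measure_lt_top.ne
  have hvol : volume (Pr u (Pl U c)) = volume (Pr u (Pl U c')) := by
    rw [← ENNReal.ofReal_toReal hf, ← ENNReal.ofReal_toReal hf']
    exact congrArg ENNReal.ofReal key1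
  have hbr : brightness (Pl U c) u = brightness (Pl U c') u := by
    unfold brightness
    rw [(hγ u hu _ hc).1, (hγ u hu _ hc').1, hvol]
  refine ⟨hbr, ?_⟩
  unfold centroid
  rw [hbr]
  congr 1
  -- integrability
  have hint : ∀ d : E n → ℝ, IsCompact (Pl U d) →
      Integrable (fun x : E n => x)
        ((Measure.hausdorffMeasure ((n : ℝ) - 1) : Measure (E n)).restrict (proj u '' Pl U d)) := by
    intro d hd
    have hK : IsCompact (proj u '' Pl U d) := hd.image (continuous_proj u)
    have hfin : (Measure.hausdorffMeasure ((n : ℝ) - 1) : Measure (E n)) (proj u '' Pl U d) ≠ ⊤ := by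
      rw [(hγ u hu _ hd).1]
      exact ENNReal.mul_ne_top hγt (isCompact_Pr u _ hd).measure_lt_top.ne
    obtain ⟨C, hC⟩ := hK.isBounded.exists_norm_le
    refine Measure.integrableOn_of_bounded (M := C) hfin
      continuous_id.aestronglyMeasurable ?_
    rw [ae_restrict_iff' hK.measurableSet]
    exact Filter.Eventually.of_forall hC
  refine ext_inner_left ℝ fun v => ?_
  have hval : ∀ d : E n → ℝ, IsCompact (Pl U d) →
      inner ℝ v (∫ x in proj u '' Pl U d, x ∂(Measure.hausdorffMeasure ((n : ℝ) - 1) :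
        Measure (E n))) = γ.toReal * ∫ y in Pr u (Pl U d), inner ℝ y (proj u v) := by
    intro d hd
    have e1 := integral_inner (𝕜 := ℝ) (hint d hd) v
    rw [← e1, (hγ u hu _ hd).2 (fun x => inner ℝ v x) (by fun_prop)]
    congr 1
    apply integral_congr_ae
    refine Filter.Eventually.of_forall fun y => ?_
    exact inner_proj u y v
  rw [hval c hc, hval c' hc', key2 (proj u v) (inner_u_proj u v hu)]

end PVD.H84
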