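import Pool.Agent.PVD.StmtsG

/-! WSG: supergradient inequality, Euler relation, nonnegativity of the partial derivatives.
Everything follows from WDI, WLC, WMO, WPS (a concave function with partial derivatives). -/

set_option autoImplicit false

open MeasureTheory Metric Set Filter Topology

namespace PVD.H84

open PVD

/-- log-concavity as concavity of the logarithm -/
theorem wsg_conc (hL : WLCStmt) (hP : WPSStmt) (n : ℕ) (R : Finset ℕ) (hR : RO n R) :
    ConcaveOn ℝ {G : ℕ → ℝ | ∀ r ∈ R, 0 < G r} (fun G => Real.log (W n R G)) := by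
  have hconv : Convex ℝ {G : ℕ → ℝ | ∀ r ∈ R, 0 < G r} := by
    intro x hx y hy a b ha hb hab r hr
    have h1 := hx r hr
    have h2 := hy r hr
    simp only [Pi.add_apply, Pi.smul_apply, smul_eq_mul]
    rcases ha.eq_or_lt with h | h
    · have : b = 1 := by linarith
      rw [← h, this]; simpa using h2
    · have := mul_pos h h1
      have := mul_nonneg hb h2.le
      linarith
  refine concaveOn_iff_forall_pos.2 ⟨hconv, ?_⟩
  intro x hx y hy a b ha hb hab
  have h1 : 0 < W n R x := (hP n R x hR).2 hx
  have h2 : 0 < W n R y := (hP n R y hR).2 hy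
  have h3 := hL n R x y hR b hb (by linarith)
  have e : 1 - b = a := by linarith
  rw [e] at h3
  have h4 : 0 < W n R x ^ a * W n R y ^ b := mul_pos (Real.rpow_pos_of_pos h1 _)
    (Real.rpow_pos_of_pos h2 _)
  have h5 := Real.log_le_log h4 h3
  rw [Real.log_mul (Real.rpow_pos_of_pos h1 _).ne' (Real.rpow_pos_of_pos h2 _).ne',
    Real.log_rpow h1, Real.log_rpow h2] at h5
  exact h5

/-- the supergradient inequality -/
theorem wsg_super (hD : WDIStmt) (hL : WLCStmt) (hM : WMOStmt) (hP : WPSStmt) (n : ℕ)
    (R : Finset ℕ) (H : ℕ → ℝ) (hn : 2 ≤ n) (hR : RO n R) (hH : ∀ r ∈ R, 0 < H r)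
    (H' : ℕ → ℝ) (hH' : ∀ r ∈ R, 0 < H' r) :
    Real.log (W n R H') ≤ Real.log (W n R H) +
      ∑ r ∈ R, dW n R H r * (H' r - H r) / W n R H := by
  have hc := wsg_conc hL hP n R hR
  have hW : 0 < W n R H := (hP n R H hR).2 hH
  set k : ℝ := (R.card : ℝ) with hk
  have hk0 : 0 < k := by
    rw [hk]; exact_mod_cast Finset.card_pos.2 hR.1
  set F : (ℕ → ℝ) → ℝ := fun G => Real.log (W n R G) with hF
  have hFc : ∀ G G' : ℕ → ℝ, (∀ r ∈ R, G r = G' r) → F G = F G' := by
    intro G G' h
    simp only [hF]
    rw [(hM n R G hR).2.2 G' h]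
  set h : ℕ → ℝ := fun r => H' r - H r with hh
  set q : ℕ → ℝ → ℝ := fun r s => F (Function.update H r (H r - s * (k * h r))) with hq
  -- derivative of q
  have hqd : ∀ r ∈ R, HasDerivAt (q r) (-(k * h r) * (dW n R H r / W n R H)) 0 := by
    intro r hr
    have h1 := hD n R H hn hR hH r hr
    have h2 : HasDerivAt (fun t : ℝ => F (Function.update H r t)) (dW n R H r / W n R H) (H r) := by
      have h3 := h1.log (by simpa using hW.ne')
      simpa using h3
    have h4 : HasDerivAt (fun s : ℝ => H r - s * (k * h r)) (-(k * h r)) 0 := by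
      have h5 := ((hasDerivAt_id (0 : ℝ)).mul_const (k * h r)).const_sub (H r)
      simpa using h5
    have h6 : HasDerivAt (fun t : ℝ => F (Function.update H r t)) (dW n R H r / W n R H)
        ((fun s : ℝ => H r - s * (k * h r)) 0) := by simpa using h2
    have h7 := HasDerivAt.comp (0 : ℝ) h6 h4
    have e : q r = (fun t : ℝ => F (Function.update H r t)) ∘ fun s : ℝ => H r - s * (k * h r) := by
      funext s; rfl
    rw [e, mul_comm (-(k * h r))]
    exact h7
  have hq0 : ∀ r, q r 0 = F H := by
    intro r
    simp [hq]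
  -- the inequality for small positive s
  have hev : ∀ᶠ s : ℝ in 𝓝[>] 0,
      s * (F H' - F H) ≤ (1 / k) * ∑ r ∈ R, (F H - q r s) := by
    have hsm : ∀ᶠ s : ℝ in 𝓝[>] 0, ∀ r ∈ R, 0 < H r - s * (k * h r) := by
      rw [Filter.eventually_all_finset]
      intro r hr
      have h1 : Tendsto (fun s : ℝ => H r - s * (k * h r)) (𝓝[>] 0) (𝓝 (H r - 0 * (k * h r))) := by
        apply Tendsto.mono_left _ nhdsWithin_le_nhds
        apply Continuous.tendsto
        fun_prop
      rw [zero_mul, sub_zero] at h1
      exact h1.eventually (lt_mem_nhds (hH r hr))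
    filter_upwards [hsm, self_mem_nhdsWithin] with s hs hs0
    rw [Set.mem_Ioi] at hs0
    -- G : the point H - s h on R
    have hG : (∑ r ∈ R, (1 / k) • q r s) ≤
        F (∑ r ∈ R, (1 / k) • Function.update H r (H r - s * (k * h r))) := by
      refine hc.le_map_sum (fun i _ => by positivity) ?_ ?_
      · rw [Finset.sum_const, nsmul_eq_mul, ← hk]
        field_simp
      · intro r hr t ht
        by_cases e : t = r
        · subst e; simpa using hs t ht
        · simpa [Function.update_of_ne e] using hH t ht
    have hGe : F (∑ r ∈ R, (1 / k) • Function.update H r (H r - s * (k * h r))) =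
        F (fun t => H t - s * h t) := by
      apply hFc
      intro t ht
      rw [Finset.sum_apply]
      simp only [Pi.smul_apply, smul_eq_mul]
      rw [← Finset.mul_sum]
      have e1 : ∀ r ∈ R, Function.update H r (H r - s * (k * h r)) t =
          H t + if t = r then - (s * (k * h r)) else 0 := by
        intro r _
        by_cases e : t = r
        · subst e; simp; ring
        · simp [e]
      rw [Finset.sum_congr rfl e1, Finset.sum_add_distrib, Finset.sum_const, nsmul_eq_mul, ← hk,
        Finset.sum_ite_eq, if_pos ht]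
      field_simp
      ring
    have hpos : ∀ r ∈ R, 0 < H r - s * h r := by
      intro r hr
      have h1 := hs r hr
      have h2 := hH r hr
      have hk1 : 1 ≤ k := by
        rw [hk]; exact_mod_cast Finset.card_pos.2 hR.1
      by_cases h3 : h r ≤ 0
      · have := mul_nonneg hs0.le (neg_nonneg.2 h3)
        nlinarith
      · push Not at h3
        have h4 : s * h r ≤ s * (k * h r) := by
          apply mul_le_mul_of_nonneg_left _ hs0.le
          nlinarith
        linarith
    -- H as a combination of H' and H - s h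
    have hy : (fun t => H t - s * h t) ∈ {G : ℕ → ℝ | ∀ r ∈ R, 0 < G r} := hpos
    have hx : H' ∈ {G : ℕ → ℝ | ∀ r ∈ R, 0 < G r} := hH'
    have ha1 : 0 ≤ s / (1 + s) := by positivity
    have hb1 : 0 ≤ 1 / (1 + s) := by positivity
    have hab1 : s / (1 + s) + 1 / (1 + s) = 1 := by field_simp; ring
    have hcomb := (And.right hc) hx hy ha1 hb1 hab1
    have hcomb2 : F ((s / (1 + s)) • H' + (1 / (1 + s)) • fun t => H t - s * h t) = F H := by
      apply hFc
      intro t _
      simp only [Pi.add_apply, Pi.smul_apply, smul_eq_mul, hh]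
      field_simp
      ring
    have h8 : (s / (1 + s)) • F H' + (1 / (1 + s)) • F (fun t => H t - s * h t) ≤ F H := by
      rw [← hcomb2]; exact hcomb
    rw [smul_eq_mul, smul_eq_mul] at h8
    have h9 : s * F H' + F (fun t => H t - s * h t) ≤ (1 + s) * F H := by
      have h10 : (1 + s) * ((s / (1 + s)) * F H' + (1 / (1 + s)) * F (fun t => H t - s * h t)) ≤
          (1 + s) * F H := mul_le_mul_of_nonneg_left h8 (by linarith)
      have h11 : (1 + s) * ((s / (1 + s)) * F H' + (1 / (1 + s)) * F (fun t => H t - s * h t)) =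
          s * F H' + F (fun t => H t - s * h t) := by
        field_simp
      rw [h11] at h10
      exact h10
    rw [hGe] at hG
    have h12 : (1 / k) * ∑ r ∈ R, (F H - q r s) = F H - ∑ r ∈ R, (1 / k) • q r s := by
      rw [Finset.sum_sub_distrib, Finset.sum_const, nsmul_eq_mul, ← hk, mul_sub, ← Finset.smul_sum,
        smul_eq_mul]
      field_simp
    rw [h12]
    linarith
  -- the limit
  have hder : HasDerivAt (fun s : ℝ => s * (F H' - F H) - (1 / k) * ∑ r ∈ R, (F H - q r s))
      ((F H' - F H) - (1 / k) * ∑ r ∈ R, (0 - (-(k * h r) * (dW n R H r / W n R H)))) 0 := by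
    have h1 : HasDerivAt (fun s : ℝ => s * (F H' - F H)) (F H' - F H) 0 := by
      simpa using (hasDerivAt_id (0 : ℝ)).mul_const (F H' - F H)
    refine h1.sub (HasDerivAt.const_mul _ (HasDerivAt.fun_sum ?_))
    intro r hr
    exact (hasDerivAt_const _ _).sub (hqd r hr)
  have hle : (F H' - F H) - (1 / k) * ∑ r ∈ R, (0 - (-(k * h r) * (dW n R H r / W n R H))) ≤ 0 := by
    have h1 := hder.tendsto_slope_zero_right
    refine le_of_tendsto h1 ?_
    filter_upwards [hev, self_mem_nhdsWithin] with s hs hs0
    rw [Set.mem_Ioi] at hs0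
    have h2 : (1 / k) * ∑ r ∈ R, (F H - q r 0) = 0 := by
      simp [hq0]
    rw [zero_add, zero_mul, h2, sub_zero, sub_zero, smul_eq_mul]
    have : s * (F H' - F H) - 1 / k * ∑ r ∈ R, (F H - q r s) ≤ 0 := by linarith
    exact mul_nonpos_of_nonneg_of_nonpos (inv_nonneg.2 hs0.le) this
  have hfin : (1 / k) * ∑ r ∈ R, (0 - (-(k * h r) * (dW n R H r / W n R H))) =
      ∑ r ∈ R, dW n R H r * (H' r - H r) / W n R H := by
    rw [Finset.mul_sum]
    apply Finset.sum_congr rfl
    intro r _
    simp only [hh]
    field_simp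
    ring
  rw [hfin] at hle
  simp only [hF] at hle
  linarith

theorem wsg (hD : WDIStmt) (hL : WLCStmt) (hM : WMOStmt) (hP : WPSStmt) : WSGStmt := by
  intro n R H hn hR hH
  have hW : 0 < W n R H := (hP n R H hR).2 hH
  refine ⟨?_, ?_, ?_⟩
  · -- Euler
    set S : ℝ := ∑ r ∈ R, dW n R H r * H r / W n R H with hS
    have h1 : ∀ t : ℝ, 0 < t → (n : ℝ) * Real.log t ≤ (t - 1) * S := by
      intro t ht
      have h2 := wsg_super hD hL hM hP n R H hn hR hH (fun r => t * H r)
        (fun r hr => mul_pos ht (hH r hr))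
      rw [(hM n R H hR).2.1 t ht, Real.log_mul (pow_pos ht n).ne' hW.ne', Real.log_pow] at h2
      have h3 : ∑ r ∈ R, dW n R H r * (t * H r - H r) / W n R H = (t - 1) * S := by
        rw [hS, Finset.mul_sum]
        apply Finset.sum_congr rfl
        intro r _
        ring
      rw [h3] at h2
      linarith
    have h4 : HasDerivAt (fun t : ℝ => (t - 1) * S - (n : ℝ) * Real.log t) (S - n) 1 := by
      have h5 : HasDerivAt (fun t : ℝ => (t - 1) * S) S 1 := by
        simpa using ((hasDerivAt_id (1 : ℝ)).sub_const 1).mul_const S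
      have h6 : HasDerivAt (fun t : ℝ => (n : ℝ) * Real.log t) n 1 := by
        simpa using (Real.hasDerivAt_log (one_ne_zero)).const_mul (n : ℝ)
      exact h5.sub h6
    have h7 : IsLocalMin (fun t : ℝ => (t - 1) * S - (n : ℝ) * Real.log t) 1 := by
      have : ∀ᶠ t : ℝ in 𝓝 1, 0 < t := lt_mem_nhds one_pos
      filter_upwards [this] with t ht
      have := h1 t ht
      simp
      linarith
    have h8 := h7.hasDerivAt_eq_zero h4
    have h9 : S = n := by linarith
    rw [← h9, hS, Finset.sum_mul]
    apply Finset.sum_congr rfl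
    intro r _
    field_simp
  · intro r hr
    have h1 : Monotone (fun t : ℝ => W n R (Function.update H r t)) := by
      intro s t hst
      refine (hM n R _ hR).1 _ ?_
      intro r' _
      by_cases e : r' = r
      · subst e; simpa using hst
      · simp [Function.update_of_ne e]
    exact h1.deriv_nonneg
  · intro H' hH'
    exact wsg_super hD hL hM hP n R H hn hR hH H' hH'

end PVD.H84
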